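import Pool.Agent.Helper51.SDL.Lft
import Pool.Agent.Helper51.REC.Asm
import Pool.Agent.Helper81.RS.SEX
import Pool.Agent.Helper22.SDL.DET
import Pool.Agent.Helper23.SDL.HQC
import Pool.Agent.Helper3.SDL.FIN
import Pool.Agent.Helper31.SDL.DEN
import Pool.Agent.Helper37.SDL.KM
import Pool.Agent.Helper45.SDL.CYC
import Pool.Agent.Helper48.SDL.LAT2
import Pool.Agent.Helper49.SDL.VEX
import Pool.Agent.Helper56.SDL.PRM
import Pool.Agent.Helper60.SDL.CNTN
import Pool.Agent.Helper72.SDL.LOC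
import Pool.Agent.Helper73.SDL.LAT1
import Pool.Agent.Helper79.SDL.HXG
import Pool.Agent.Helper80.SDL.RNK
import Pool.Agent.Helper85.SDL.HQE
import Pool.Agent.Helper89.SDL.CNTA
import Pool.Agent.Helper92.SDL.DU
import Pool.Agent.Helper96.SDL.HER
import Pool.Agent.Helper35.SDL.PRI

/-!
# Project SD, part L: the final theorem `s_lift`
-/

set_option autoImplicit false

namespace Pool.Agent.Helper51.SDL

theorem s_her : S_HER := Helper96.SDL.HER.t Helper85.SDL.HQE.t Helper23.SDL.HQC.t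
theorem s_cnta : S_CNTA := Helper89.SDL.CNTA.t Helper79.SDL.HXG.t Helper56.SDL.PRM.t
theorem s_lat2 : S_LAT2 := Helper48.SDL.LAT2.t Helper73.SDL.LAT1.t
theorem s_vex : S_VEX := Helper49.SDL.VEX.t Helper73.SDL.LAT1.t s_lat2 Helper72.SDL.LOC.t
theorem s_cntn : S_CNTN :=
  Helper60.SDL.CNTN.t s_cnta s_her s_vex Helper3.SDL.FIN.t Helper80.SDL.RNK.t Helper35.SDL.PRI.t

/-- The first inequality and lifting. -/
theorem s_lift : Pool.Agent.Helper16.SD.S_LIFT :=
  lft s_cntn Helper92.SDL.DU.t Helper22.SDL.DET.t Helper31.SDL.DEN.t Helper37.SDL.KM.t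
    Helper45.SDL.CYC.t Pool.Agent.Helper81.RS.s_sex Pool.Agent.Helper51.REC.k_bas

end Pool.Agent.Helper51.SDL
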