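import Pool.Agent.Helper16.SD.Top

/-!
# Project SD (MP_fc6b1e_nt), part L: the first inequality and lifting (captain helper51)

`L/F` is cyclic of degree `n = p^k`, unramified outside the set `S` of primes of `F` above `p`, `σ` a
generator of the Galois group, `S' = upS L S`. `V` is a subgroup of `Lˣ`, stable under `σ`, consisting of
elements close to `1` at `S'` (it contains all the elements congruent to `1` modulo `p^M` at `S'`), with
`H¹(V) = 0` (`S_VEX`). `φ : V → D_L` is the divisor outside `S'`, `E` its kernel (units in `V`).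
`H¹(D_L) = 0`, `D_L/φ(V)` is finite (`S_FIN`), `|H¹(E)| = n |H⁰(E)|` (`S_HER`, `S_RNK`). So the index of
the group generated by the norms and the divisors of the elements of `V^σ` in `D_F` is at least `n`
(`S_HXG`, `S_CNTA`, `S_CNTN`). Its characters of order `p` are Kummer characters of elements of `F` which
are `p`-th powers in `L` (`S_DU`, `S_DEN`), so they are multiples of one of them (`S_KM`), the quotient is
cyclic (`S_CYC`), and it has a character of order `p^k` (`s_lift`).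

Every statement is a `def ... : Prop` with its complete proof in the docstring. Useful proved facts: everything
in `Pool/Agent/Helper51/REC/Asm.lean` (import it; names `k_bas, k_app, k_brk, k_loc, h_idx, h_rnk, l_upp, g_int,
r_dua, ..` in the namespace `Pool.Agent.Helper51.REC`), and the lemmas in the files of that project.
-/

set_option autoImplicit false

namespace Pool.Agent.Helper51.SDL

open NumberField Module IsDedekindDomain
open Pool.Agent.Helper51.RP Pool.Agent.Helper51.REC Pool.Agent.Helper16.SD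

/-- The primes which are not in `S`. -/
abbrev PF {F : Type} [Field F] [NumberField F] (S : Set (HeightOneSpectrum (𝓞 F))) : Type :=
  {W : HeightOneSpectrum (𝓞 F) // W ∉ S}

open Classical in
/-- The number of the `i < n` with `π^i w = w`. -/
noncomputable def fx {P : Type} (n : ℕ) (π : Equiv.Perm P) (w : P) : ℕ :=
  ((Finset.range n).filter fun i ↦ (π ^ i) w = w).card

/-- `π^n = 1` and the fibres of the surjective map `b` are the orbits of `π`. -/
structure Orb {P Q : Type} (n : ℕ) (π : Equiv.Perm P) (b : P → Q) : Prop where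
  pos : 0 < n
  pow : ∀ w, (π ^ n) w = w
  orb : ∀ w w', b w = b w' ↔ ∃ i : ℕ, w' = (π ^ i) w
  surj : Function.Surjective b

/-- The subgroup generated by the `f_w b(w)` and the `ψ(v)`. -/
noncomputable def HH {P Q A : Type} (n : ℕ) (π : Equiv.Perm P) (b : P → Q) (ψ : A → Q →₀ ℤ) :
    AddSubgroup (Q →₀ ℤ) :=
  AddSubgroup.closure ({d | ∃ w, d = Finsupp.single (b w) (fx n π w : ℤ)} ∪ Set.range ψ)

/-! ## Herbrand quotients -/

/-- **HQE** (multiplicativity). `H` is a subgroup, `f`, `g` commuting endomorphisms which preserve `H`,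
`K = H ∩ ker g`, `I = g(H)`. If `f` has finite kernel and cokernel on `K` and on `I`, then also on `H`, and
`[H : fH] |K ∩ ker f| |I ∩ ker f| = [K : fK] [I : fI] |H ∩ ker f|`.

PROOF. `g` maps `H` onto `I` with kernel `K`.
Cokernels: `[H : fH] = [H : fH · K] [fH · K : fH]`. `g` induces `H/(fH · K) ≅ I/fI` (`g(fH) = f g(H) = f I`, and
`g x ∈ fI = g(fH)` iff `x ∈ fH · K`), so `[H : fH · K] = [I : fI]`. `[fH · K : fH] = [K : K ∩ fH]`, and
`[K : fK] = [K : K ∩ fH] [K ∩ fH : fK]`.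
Kernels: `g` maps `H ∩ ker f` onto `X = g(H ∩ ker f) ⊆ I ∩ ker f` with kernel `K ∩ ker f`:
`|H ∩ ker f| = |K ∩ ker f| |X|`.
CLAIM `|I ∩ ker f| = |X| [K ∩ fH : fK]`. Map `y ∈ I ∩ ker f`, `y = g h`, to the class of `f h` in `(K ∩ fH)/fK`:
`g f h = f y = 1`, so `f h ∈ K`; another `h'` differs by an element of `K`, so the class is well defined; it is
surjective (`f h ∈ K` implies `f g h = 1`); the kernel: `f h = f x`, `x ∈ K`, so `h/x ∈ ker f`,
`y = g(h/x) ∈ X`. So `[H : fH] |K ∩ ker f| |I ∩ ker f| = [I : fI] [K : K ∩ fH] |K ∩ ker f| |X| [K ∩ fH : fK] =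
[I : fI] [K : fK] |H ∩ ker f|`. Finiteness follows from the same formulas. -/
def S_HQE : Prop :=
  ∀ (M : Type) [CommGroup M] (f g : M →* M) (H : Subgroup M), (∀ x, f (g x) = g (f x)) →
    H.map f ≤ H → H.map g ≤ H →
    ((H ⊓ g.ker).map f).relIndex (H ⊓ g.ker) ≠ 0 → Finite (H ⊓ g.ker ⊓ f.ker : Subgroup M) →
    ((H.map g).map f).relIndex (H.map g) ≠ 0 → Finite (H.map g ⊓ f.ker : Subgroup M) →
    (H.map f).relIndex H ≠ 0 ∧ Finite (H ⊓ f.ker : Subgroup M) ∧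
    (H.map f).relIndex H * (Nat.card (H ⊓ g.ker ⊓ f.ker : Subgroup M) *
        Nat.card (H.map g ⊓ f.ker : Subgroup M)) =
      ((H ⊓ g.ker).map f).relIndex (H ⊓ g.ker) * ((H.map g).map f).relIndex (H.map g) *
        Nat.card (H ⊓ f.ker : Subgroup M)

/-- **HQC** (modules over the ring of integers of the `p^i`-th cyclotomic field). `J` is a subgroup stable under
`σ`, and `∏_{j<p} σ^(j p^(i-1))(x) = 1` for `x ∈ J`. Then `q(1-σ)^(φ(p^i)) = p^(rank J)` for the quotient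
`q(f) = [J : fJ]/|J ∩ ker f|`.

PROOF (from `h_idx` = `REC.H_IDX`: `q(f g) = q(f) q(g)`, used for `A = J`). Let `Φ = 1 + Y + ... + Y^(p-1)`,
`Y = X^(p^(i-1))`, the `p^i`-th cyclotomic polynomial (`Polynomial.cyclotomic_prime_pow_eq_geom_sum`). `J` (written
additively) is a module over `T = ℤ[X]/(Φ)` (`X` acts as `σ`). `T` is a domain, the class `x` of `X` is a
primitive `p^i`-th root of unity, and `p = Φ(1) = ∏ (1 - x^j)` over the `j < p^i` prime to `p`
(`Polynomial.cyclotomic_eq_prod_X_sub_primitiveRoots`, `Polynomial.eval_one_cyclotomic_prime_pow`); `1 - x^j` and `1 - x` are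
associated (`IsPrimitiveRoot.associated_sub_one_pow_sub_one_of_coprime`). So `p = (1-x)^(φ(p^i)) u` with a unit `u`
of `T`; let `U, U'` be polynomials which represent `u`, `u⁻¹`. On `J`: `p = (1-σ)^φ U(σ)`, `U(σ) U'(σ) = 1`. `q(p) =
p^(rank J)` (kernel and cokernel are finite as `J` is finitely generated; see `pow_index` in
`Pool/Agent/Helper13/REC/HHER.lean`), `q(U(σ)) = 1` (bijective). `ker(1-σ) ⊆ ker p` and `(1-σ)J ⊇ pJ` are of finite
index, so `q(1-σ)^φ = q(p) = p^(rank J)`. -/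
def S_HQC : Prop :=
  ∀ (p : ℕ) [Fact p.Prime] (i : ℕ) (M : Type) [CommGroup M] [Group.FG M] (σ : M ≃* M)
    (J : Subgroup M), (∀ x ∈ J, σ x ∈ J) → (∀ x ∈ J, (σ ^ (p ^ (i + 1)) : MulAut M) x = x) →
    (∀ x ∈ J, ∏ j ∈ Finset.range p, (σ ^ (j * p ^ i) : MulAut M) x = 1) →
    (J.map (dfG σ)).relIndex J ≠ 0 ∧ Finite (J ⊓ (dfG σ).ker : Subgroup M) ∧
    (J.map (dfG σ)).relIndex J ^ (p ^ i * (p - 1)) =
      p ^ finrank ℤ (Additive J) * Nat.card (J ⊓ (dfG σ).ker : Subgroup M) ^ (p ^ i * (p - 1))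

/-- **HER** (the Herbrand quotient for a cyclic group of order `p^k`). Hypotheses allowed: `H_IDX` (`h_idx`), `S_HQE`,
`S_HQC`. Model: `Pool/Agent/Helper13/REC/HHER.lean` (the case `k = 1`; its lemmas `rank_add`, `rank_eq`, `pow_index`,
`fin_sub`, `nm_sigma`, .. are useful).

PROOF. `M_i = fixG (σ^(p^i))`, of rank `r p^i - 1`; `M_0 = M^σ`, `M_k = M`; `n = p^k`, `N = nmG n σ`, `D = dfG σ`,
`B = ker N`, `q_H(f) = [H : fH]/|H ∩ ker f|`.
(1) `N M ⊇ N M^σ = (M^σ)^n`, `[N M : N M^σ] = [M : M^σ B]`, so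
`|M^σ/N M| [M : M^σ B] = [M^σ : (M^σ)^n] = n^(r-1) |M^σ[n]|`.
(2) `D M ⊇ D B`, `[D M : D B] = [M : M^σ B]`, so `|B/D M| [M : M^σ B] = [B : D B] = q_B(D) |B ∩ M^σ|` and
`B ∩ M^σ = M^σ[n]` since `N = n` on `M^σ`. Hence `|B/D M| n^(r-1) = |M^σ/N M| q_B(D)`. All these are finite:
`[M : M^σ B]` divides a power of `n` since `x^n = N x (x^n/N x)`, `N x ∈ M^σ`, `x^n/N x ∈ B`, and `M` is finitely
generated.
(3) `q_B(D) = p^(r k)`: let `B_i = B ∩ M_i`, `g_i = σ^(p^(i-1)) - 1` (i.e. `x ↦ σ^(p^(i-1))(x)/x`), `1 ≤ i ≤ k`.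
`B_i ∩ ker g_i = B_(i-1)`; `J_i = g_i(B_i)` is killed by `Φ_i = 1 + σ^(p^(i-1)) + ... + σ^((p-1) p^(i-1))`, as
`g_i Φ_i = σ^(p^i) - 1 = 0` on `M_i`. By `S_HQE` (`f = D`, `g = g_i`, `H = B_i`): `q_(B_i)(D) = q_(B_(i-1))(D)
q_(J_i)(D)`. `B_0 = M^σ[n]` is finite, so `q_(B_0)(D) = 1`. By `S_HQC`, `q_(J_i)(D)^(φ(p^i)) = p^(rank J_i)`, and
`rank J_i = rank B_i - rank B_(i-1)`. `rank B_i = rank M_i - rank M_0`: `N` maps `M_i` into `M_0` with kernel `B_i`
and its image contains `M_0^n`. So `rank J_i = r (p^i - p^(i-1)) = r φ(p^i)` and `q_(J_i)(D) = p^r`.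
So `|B/D M| = |M^σ/N M| p^(r k)/p^(k (r-1)) = p^k |M^σ/N M|`. (`r ≥ 1` by the formula for the ranks.) -/
def S_HER : Prop :=
  ∀ (p : ℕ) [Fact p.Prime] (k r : ℕ) (M : Type) [CommGroup M] [Group.FG M] (σ : M ≃* M),
    (∀ x, (σ ^ (p ^ k) : MulAut M) x = x) →
    (∀ i, i ≤ k → finrank ℤ (Additive (fixG (σ ^ (p ^ i) : MulAut M))) + 1 = r * p ^ i) →
    (nmG (p ^ k) σ).range.relIndex (fixG σ) ≠ 0 ∧
    (dfG σ).range.relIndex (nmG (p ^ k) σ).ker =
      p ^ k * (nmG (p ^ k) σ).range.relIndex (fixG σ)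

/-! ## The inequality -/

/-- **HXG** (the first inequality, abstract form). `V, D, E` are modules over the cyclic group of order `n` (the
generator acts by `s, u, t`), `1 → E → V → D` is exact, `H¹(V) = H¹(D) = 0`, `P = φ(V)` has finite index in `D`, `H⁰(E)`
and `H¹(E)` are finite. Then `|H¹(E)| ≤ |H⁰(E)| [D^u : N D · φ(V^s)]`.

PROOF. `N`, `δ = 1 - s` etc. denote `nmG n`, `dfG`. `u P = P`.
(a) `|P^u/φ(V^s)| = |H¹(E)|`: map `x ∈ P^u`, `x = φ(v)`, to the class of the `e ∈ E` with `j(e) = δ v`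
(`φ(δ v) = δ x = 1`); `N e = 1`. Another `v'` differs by an element of `j(E)`, so the class modulo `δ E` is well
defined. Surjective: if `N e = 1` then `N j(e) = 1`, so `j(e) = δ v` (`H¹(V) = 0`). Kernel: `δ v = j(δ e')`, so
`v/j(e') ∈ V^s`, `x = φ(v/j(e')) ∈ φ(V^s)`.
(b) `|ker(N|P)/δ P| ≤ |H⁰(E)|`: for `x = φ(v)`, `N x = 1`: `N v ∈ j(E)`, `N v = j(e)`, `e ∈ E^t`. If `x, x'` give the
same class modulo `N E`, then (quotient) `N v = j(N e')`, so `v/j(e') = δ y`, `x = φ(δ y) = δ φ(y)`.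
(c) `C = D/P` finite, `|C^u| = |C/δ C|`. `C/δC = D/(P δD)`, and `N : D → N D` has the kernel `δ D`
(`H¹(D) = 0`), so `D/(P δ D) ≅ N D/N P`: `|C^u| = [N D : N P]`.
(d) `C^u`: `{d ∈ D : δ d ∈ P}/P`. Map `d ↦ δ d ∈ ker(N|P)`; it is onto `ker(N|P)` (`H¹(D) = 0`), and `δ d ∈ δ P` iff
`d ∈ D^u P`. So `|C^u| = [D^u P : P] |ker(N|P)/δP| = [D^u : P^u] |ker(N|P)/δ P|`.
(e) `[D^u : φ(V^s)] = [D^u : P^u] |H¹(E)|` by (a), finite and `≠ 0`. Let `X = [D^u : N D · φ(V^s)]`.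
`[D^u : φ(V^s)] = X [N D · φ(V^s) : φ(V^s)] = X [N D : N D ∩ φ(V^s)] ≤ X [N D : N P]`, because
`N P = φ(N V) ⊆ N D ∩ φ(V^s)`. By (c), (d), (b) `[N D : N P] = |C^u| ≤ [D^u : P^u] |H⁰(E)|`. So
`[D^u : P^u] |H¹(E)| ≤ X [D^u : P^u] |H⁰(E)|`; divide by `[D^u : P^u] ≥ 1` (finite). -/
def S_HXG : Prop :=
  ∀ (n : ℕ) (V D E : Type) [CommGroup V] [CommGroup D] [CommGroup E] (s : V ≃* V) (u : D ≃* D)
    (t : E ≃* E) (j : E →* V) (φ : V →* D), 0 < n →
    (∀ v, (s ^ n : MulAut V) v = v) → (∀ d, (u ^ n : MulAut D) d = d) →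
    (∀ v, φ (s v) = u (φ v)) →
    Function.Injective j → (∀ v, φ v = 1 ↔ v ∈ j.range) → (∀ e, j (t e) = s (j e)) →
    (∀ v, nmG n s v = 1 → ∃ y, v = dfG s y) → (∀ d, nmG n u d = 1 → ∃ y, d = dfG u y) →
    φ.range.index ≠ 0 → (nmG n t).range.relIndex (fixG t) ≠ 0 →
    (dfG t).range.relIndex (nmG n t).ker ≠ 0 →
    ((nmG n u).range ⊔ (fixG s).map φ).relIndex (fixG u) ≠ 0 ∧
    (dfG t).range.relIndex (nmG n t).ker ≤
      (nmG n t).range.relIndex (fixG t) * ((nmG n u).range ⊔ (fixG s).map φ).relIndex (fixG u)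

/-- **PRM** (permutation modules). `D = ℤ^(P)` with the action `u` of `π`: `(u d)(π w) = d(w)`.

PROOF. (1) `H¹(D) = 0`: let `N d = 0` (additively), i.e. `∑_{i<n} d(π^(-i) w) = 0` for all `w`. Choose a representative `w`
in each orbit of `π` and let `g = g_w ≥ 1` be its length (the least `g ≥ 1` with `π^g w = w`; `g ∣ n`); the sum over
`i < n` is `n/g` times the sum over the orbit, so `∑_{i<g} d(π^i w) = 0`. Put
`y(π^i w) = ∑_{j ≤ i} d(π^j w)` for `0 ≤ i < g`. For `0 < i < g`: `y(π^i w) - y(π^(i-1) w) = d(π^i w)`; for `i = 0`: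
`y(w) - y(π^(g-1) w) = d(w) - 0`. So `d = y - u y` (`(u y)(π^i w) = y(π^(i-1) w)`). `y` is zero on the orbits
on which `d` is zero, so it has finite support.
(2) `d` is fixed by `u` iff it is constant on the orbits, i.e. on the fibres of `b`: then `d(w) = e(b w)` for a function
`e` on `Q` (`b` is surjective), with finite support; conversely such a `d` has finite support, because the fibres of `b`
(orbits) are finite.
(3) `N(δ_w) = ∑_{i<n} δ_(π^i w)`: its value at `w' = π^l w` is the number of the `i < n` with `π^i w = π^l w`, i.e. with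
`π^(i-l) w = w`, which is equal to `fx n π w` since `i ↦ i - l mod n` permutes the residues modulo `n` (`π^n w = w`); the
value at the other `w'` is `0`. -/
def S_PRM : Prop :=
  ∀ (n : ℕ) (P Q : Type) (π : Equiv.Perm P) (b : P → Q), Orb n π b →
  ∀ u : Multiplicative (P →₀ ℤ) ≃* Multiplicative (P →₀ ℤ),
    (∀ d w, (u d).toAdd (π w) = d.toAdd w) →
    (∀ d, (u ^ n : MulAut (Multiplicative (P →₀ ℤ))) d = d) ∧
    (∀ d, nmG n u d = 1 → ∃ y, d = dfG u y) ∧
    (∀ d, d ∈ fixG u ↔ ∃ e : Q →₀ ℤ, ∀ w, d.toAdd w = e (b w)) ∧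
    (∀ e : Q →₀ ℤ, ∃ d : Multiplicative (P →₀ ℤ), ∀ w, d.toAdd w = e (b w)) ∧
    ∀ w w', (nmG n u (Multiplicative.ofAdd (Finsupp.single w 1))).toAdd w' =
      Finsupp.single (b w) (fx n π w : ℤ) (b w')

/-- **CNTA** (the inequality for divisor groups). Hypotheses allowed: `S_HXG`, `S_PRM`.

PROOF. `D = ℤ^(P)` (multiplicative notation), `u` the automorphism `(u d)(π w) = d(w)` (`Finsupp.domCongr π` or
`Finsupp.equivMapDomain`); `φ(s v) = u(φ v)`. `H¹(D) = 0` and the description of `D^u` by `S_PRM`. `S_HXG` gives, with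
`|H¹(E)| = n |H⁰(E)|`, `|H⁰(E)| ≥ 1`: the index of `N D · φ(V^s)` in `D^u` is not `0` and at least `n`. The additive
isomorphism `β : ℤ^(Q) → D^u`, `e ↦ e ∘ b` (`S_PRM`) maps `f_w b(w)` to `N(δ_w)` (`S_PRM`), and the `δ_w` generate `D`,
so the `N(δ_w)` generate `N D`; it maps `ψ(v)` to `φ(v)` for `v ∈ V^s`. So `β(H) = N D · φ(V^s)`, and the index of `H` in
`ℤ^(Q)` is the index of `N D · φ(V^s)` in `D^u`. -/
def S_CNTA : Prop :=
  ∀ (n : ℕ) (P Q V E : Type) [CommGroup V] [CommGroup E] (π : Equiv.Perm P) (b : P → Q)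
    (s : V ≃* V) (t : E ≃* E) (j : E →* V) (φ : V →* Multiplicative (P →₀ ℤ)) (ψ : V → Q →₀ ℤ),
    Orb n π b →
    (∀ v, (s ^ n : MulAut V) v = v) → (∀ v w, (φ (s v)).toAdd (π w) = (φ v).toAdd w) →
    Function.Injective j → (∀ v, φ v = 1 ↔ v ∈ j.range) → (∀ e, j (t e) = s (j e)) →
    (∀ v, nmG n s v = 1 → ∃ y, v = dfG s y) → φ.range.index ≠ 0 →
    (nmG n t).range.relIndex (fixG t) ≠ 0 →
    (dfG t).range.relIndex (nmG n t).ker = n * (nmG n t).range.relIndex (fixG t) →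
    (∀ v, s v = v → ∀ w, (φ v).toAdd w = ψ v (b w)) →
    (HH n π b (fun v : fixG s ↦ ψ v)).index ≠ 0 ∧
    n ≤ (HH n π b (fun v : fixG s ↦ ψ v)).index

/-! ## The group `V` -/

/-- The lattice spanned over `R` by the conjugates of `a`. -/
def Lat {F L : Type} [Field F] [Field L] [Algebra F L] (R : Subring F) (n : ℕ) (σ : L ≃ₐ[F] L) (a : L) :
    Set L :=
  {x | ∃ c : ℕ → F, (∀ i, c i ∈ R) ∧ x = ∑ i ∈ Finset.range n, algebraMap F L (c i) * (σ ^ i) a}

/-- The hypotheses for the lattice: `σ` generates the Galois group, of order `n`, the conjugates of `a` are a basis,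
`F` is the union of the `p^(-m) R` and `p` is in the radical of `R`. -/
structure LatH {F L : Type} [Field F] [Field L] [Algebra F L] (p : ℕ) (R : Subring F) (n : ℕ)
    (σ : L ≃ₐ[F] L) (a : L) : Prop where
  pos : 0 < n
  gal : IsGalois F L
  fin : FiniteDimensional F L
  deg : finrank F L = n
  gen : ∀ g : L ≃ₐ[F] L, ∃ i : ℕ, g = σ ^ i
  pow : σ ^ n = 1
  bas : ∀ x : L, ∃ c : ℕ → F, x = ∑ i ∈ Finset.range n, algebraMap F L (c i) * (σ ^ i) a
  ind : ∀ c : ℕ → F, ∑ i ∈ Finset.range n, algebraMap F L (c i) * (σ ^ i) a = 0 →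
    ∀ i < n, c i = 0
  frac : ∀ x : F, ∃ m : ℕ, (p : F) ^ m * x ∈ R
  rad : ∀ r ∈ R, ∃ t ∈ R, (1 + (p : F) * r) * t = 1
  ne : (p : F) ≠ 0

/-- **LAT1** (the group `1 + p^N A`).

PROOF. `A = Lat R n σ a` is a free `R`-module with basis `σ^i a`, `i < n`, stable under `σ` (`σ^n = 1`).
(1) `σ^i a · σ^j a = ∑_l c_(ijl) σ^l a` with `c_(ijl) ∈ F`; choose `N₁` with `p^(N₁) c_(ijl) ∈ R` for all `i, j, l < n`
(`frac`; `p ∈ R`): `p^(N₁) x y ∈ A` for `x, y ∈ A`; so `p^N x y ∈ p^(N - N₁) A` for `N ≥ N₁`. Take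
`N₀ = N₁ + 1`, let `N ≥ N₀`.
(2) Let `x ∈ A`. The map `μ : A → A`, `μ(z) = z + p^N x z`, has a matrix over `R`, congruent to `1` modulo `p`, so its
determinant is `1 + p r`, `r ∈ R`, a unit of `R` (`rad`): `μ` is bijective on `A`. (Determinant and inverse (adjugate) of
a matrix with entries in `R`.) Let `μ(z) = -x`: `(1 + p^N x)(1 + p^N z) = 1 + p^N (x + μ(z)) = 1`. So `1 + p^N x ≠ 0`,
and its inverse is in `1 + p^N A`. Products: `(1 + p^N x)(1 + p^N y) = 1 + p^N (x + y + p^N x y)`.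
(3) `σ(1 + p^N x) = 1 + p^N σ x`, and the same for `σ⁻¹ = σ^(n-1)`. -/
def S_LAT1 : Prop :=
  ∀ (F L : Type) [Field F] [Field L] [Algebra F L] (p : ℕ) (R : Subring F) (n : ℕ)
    (σ : L ≃ₐ[F] L) (a : L), LatH p R n σ a →
  ∃ N₀ : ℕ, ∀ N, N₀ ≤ N →
    (∀ x ∈ Lat R n σ a, ∀ y ∈ Lat R n σ a, (p : L) ^ N * (x * y) ∈ Lat R n σ a) ∧
    ∃ (V : Subgroup Lˣ) (s : V ≃* V),
      (∀ v : Lˣ, v ∈ V ↔ ∃ x ∈ Lat R n σ a, (v : L) = 1 + (p : L) ^ N * x) ∧
      ∀ v : V, (((s v : V) : Lˣ) : L) = σ ((v : Lˣ) : L)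

/-- **LAT2** (`H¹ = 0`).  Hypothesis allowed: `S_LAT1`.

PROOF. `A = Lat R n σ a`, `N₁` such that `p^(N₁) x y ∈ A` for `x, y ∈ A` (`S_LAT1`), `V_j = 1 + p^j A` for
`j ≥ N₁ + 1`, a group, `V_(j+1) ⊆ V_j`. Let `N ≥ N₁ + 1` and `v ∈ V_N`, `∏_{i<n} σ^i(v) = 1`.
(1) STEP. If `j ≥ N`, `v ∈ V_j`, `∏ σ^i(v) = 1`, there is `y ∈ V_j` with `v σ(y)/y ∈ V_(j+1)`. Let `v = 1 + p^j x`. Expanding
`∏ σ^i(v) = 1`: `∑_i σ^i(x) ∈ p^(j - (n-1) N₁).. ` more simply: products of two or more factors `p^j σ^i(x)` are in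
`p^(j+1) A` (`p^j x y ∈ p A`, `j ≥ N₁ + 1`), so `p^j T ∈ p^(j+1) A`, `T = ∑_i σ^i(x) ∈ p A`. If `x = ∑ c_i σ^i(a)` then
`T = (∑_i c_i) ∑_l σ^l(a)`, so by uniqueness of the coefficients `∑ c_i ∈ p R`. Put `z_i = c_0 + ... + c_i` for `i < n`,
`z = ∑ z_i σ^i(a) ∈ A`: `z - σ z` has the coefficients `c_i` for `0 < i < n` and `c_0 - ∑ c_i` for `i = 0`
(`σ^n = 1`), so `x - (z - σ z) ∈ p A`. `y = 1 + p^j z`: `v σ(y) ≡ 1 + p^j (x + σ z) ≡ 1 + p^j z = y mod p^(j+1) A`, so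
`v σ(y)/y ∈ 1 + p^(j+1) A` (`y⁻¹ A ⊆ A` by the group property: `y⁻¹ = 1 + p^j z'`, `y⁻¹ w = w + p^j z' w ∈ A` for
`w ∈ A`). It has norm `1`.
(2) So for every `J ≥ N` there are `y ∈ V_N`, `v_J ∈ V_J`, `∏ σ^i(v_J) = 1`, with `v = (y/σ y) v_J`.
(3) Let `t = ∑_l σ^l(a) ∈ F`, `t ≠ 0` (`ind`), `a₀ = a/t`; choose `m` with `p^m a₀ ∈ A` (`frac`). Let `J` be so large that
`J ≥ N + N₁ + m + 1`. `y' = ∑_{i<n} (∏_{l<i} σ^l(v_J)) σ^i(a₀)`. `v_J σ(y') = y'` (the norm of `v_J` is `1`),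
`y' - 1 = ∑_i (∏_{l<i} σ^l(v_J) - 1) σ^i(a₀)`, since `∑ σ^i(a₀) = 1`, and `∏_{l<i} σ^l(v_J) ∈ V_J`, so
`y' - 1 ∈ p^J A · p^(-m) A ⊆ p^(J - m - N₁) A ⊆ p^N A`. So `y' ∈ V_N` (it is not `0`: `0 ∉ V_N`, because by (2) of
`S_LAT1` `1 + p^N x` is invertible; or: if `y' = 0` then `1 ∈ p^N A`, and a power of ..; use the characterisation of
`V`: apply `S_LAT1` with `v' = 1 + p^N x`), `v_J = y'/σ(y')`, `v = (y y')/σ(y y')`.
(For `y' ≠ 0`: if `1 + p^N x = 0` with `x ∈ A` then `1 = -p^N x ∈ p A` (`1 ∈ L`), so `w = 1 · w ∈ p^(N) x A ⊆ p A` for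
all `w ∈ A`, contradiction for `w = a`: the coefficient `1` would be in `pR`, so `0 = 1 + p (-r)` is a unit.) -/
def S_LAT2 : Prop :=
  ∀ (F L : Type) [Field F] [Field L] [Algebra F L] (p : ℕ) (R : Subring F) (n : ℕ)
    (σ : L ≃ₐ[F] L) (a : L), LatH p R n σ a →
  ∃ N₀ : ℕ, ∀ N, N₀ ≤ N → ∀ v : Lˣ, (∃ x ∈ Lat R n σ a, (v : L) = 1 + (p : L) ^ N * x) →
    ∏ i ∈ Finset.range n, (σ ^ i) (v : L) = 1 →
    ∃ y : Lˣ, (∃ x ∈ Lat R n σ a, (y : L) = 1 + (p : L) ^ N * x) ∧ (v : L) * σ (y : L) = y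

/-- **LOC** (the lattice for a number field). `R` is the ring of the elements of `F` which are integral at the primes in
`S`. There is a normal basis generator `a`, integral at `S'`, and the elements integral at `S'` are in `p^(-M) A`.

PROOF. `R` is a subring (valuations). `frac`: `S` is finite (the primes above `p`), `ord_W(p) ≥ 1` for `W ∈ S`, so
`p^m x` is integral at all `W ∈ S` for `m` large. `rad`: if `r ∈ R` then `ord_W(p r) ≥ 1`, so `1 + p r` is a unit at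
every `W ∈ S` and its inverse in `F` is in `R` (it is not `0` as `S` is not empty). Normal basis: Mathlib
`IsGalois.normalBasis` / `exists_linearIndependent_algEquiv_apply`; `σ^i`, `i < n`, are all the elements of the Galois
group, each once (`n = finrank F L = card`). Multiply the generator by a power of `p`: it is integral at the (finitely
many) primes of `S'`. So are its conjugates (`w ∈ S'` iff `σ w ∈ S'`), and the elements of `A`.
Let `x ∈ L` be integral at `S'`, `x = ∑ c_i σ^i(a)`. The trace form is nondegenerate: let `a*_i` be the dual basis of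
`σ^i(a)` (`Tr(a*_i σ^j(a)) = δ_ij`; `BilinForm.dualBasis`), `M` such that `p^M a*_i` is integral at `S'` for all `i`.
`p^M c_i = Tr(x p^M a*_i)` is a sum of conjugates of an element integral at `S'`, so it is integral at `S'`, so
`p^M c_i ∈ R` (an element of `F` integral at `w ∈ S'` above `W` is integral at `W`, and every `W ∈ S` has a prime
above it). So `p^M x ∈ A`. -/
def S_LOC : Prop :=
  ∀ (p : ℕ) [Fact p.Prime] (F L : Type) [Field F] [NumberField F] [Field L] [NumberField L]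
    [Algebra F L] [IsGalois F L] (n : ℕ) (σ : L ≃ₐ[F] L), finrank F L = n →
    (∀ g : L ≃ₐ[F] L, ∃ i : ℕ, g = σ ^ i) →
  ∀ S : Set (HeightOneSpectrum (𝓞 F)), S.Nonempty → (∀ W ∈ S, W.valuation F (p : F) < 1) →
  ∃ (R : Subring F) (a : L) (M : ℕ), (∀ x, x ∈ R ↔ ∀ W ∈ S, W.valuation F x ≤ 1) ∧
    LatH p R n σ a ∧ (∀ x ∈ Lat R n σ a, ∀ w ∈ upS L S, w.valuation L x ≤ 1) ∧
    ∀ x : L, (∀ w ∈ upS L S, w.valuation L x ≤ 1) → (p : L) ^ M * x ∈ Lat R n σ a

/-- **VEX** (the group `V`). Hypotheses allowed: `S_LAT1`, `S_LAT2`, `S_LOC`.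

PROOF. `R, a, M₀` from `S_LOC`; `N ≥ 1` at least the two numbers `N₀` of `S_LAT1`, `S_LAT2`; `V`, `s` from `S_LAT1`.
`nmG n s v = 1` says `∏_{i<n} σ^i(v) = 1` (`(s^i v) = σ^i(v)` by induction), `S_LAT2` gives `y ∈ V` with
`v s(y) = y`, `v = y/s(y) = dfG s y`. `M = N + M₀`: if `v - 1` has valuations `≤` those of `p^M` at `S'` then
`x = (v - 1)/p^M` is integral at `S'`, `p^(M₀) x ∈ A`, `v = 1 + p^N (p^(M₀) x) ∈ V`. If `v = 1 + p^N x ∈ V`, `w ∈ S'`,
then `w(x) ≤ 1`, `w(p) < 1` (`w` is above `W ∈ S`), `N ≥ 1`, so `w(v - 1) < 1` and `w(v) = 1`. -/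
def S_VEX : Prop :=
  ∀ (p : ℕ) [Fact p.Prime] (F L : Type) [Field F] [NumberField F] [Field L] [NumberField L]
    [Algebra F L] [IsGalois F L] (n : ℕ) (σ : L ≃ₐ[F] L), finrank F L = n →
    (∀ g : L ≃ₐ[F] L, ∃ i : ℕ, g = σ ^ i) →
  ∀ S : Set (HeightOneSpectrum (𝓞 F)), S.Nonempty → (∀ W ∈ S, W.valuation F (p : F) < 1) →
  ∃ (V : Subgroup Lˣ) (s : V ≃* V) (M : ℕ),
    (∀ v : V, (((s v : V) : Lˣ) : L) = σ ((v : Lˣ) : L)) ∧
    (∀ v : V, nmG n s v = 1 → ∃ y : V, v = dfG s y) ∧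
    (∀ v : Lˣ, Cong p (upS L S) M (v : L) → v ∈ V) ∧
    ∀ v ∈ V, ∀ w ∈ upS L S, w.valuation L ((v : Lˣ) : L) = 1

/-! ## Divisors, units -/

/-- **FIN** (finiteness of the ray class group). `T` is a set of primes above `p`, `φ` the divisor outside `T` on a group `V`
which contains all the elements congruent to `1` modulo `p^M` at `T`. Its image has finite index.

PROOF. `T` is finite. Let `U` be the group of the `x ∈ Lˣ` which are units at `T`, `V₀ ⊆ U` the subgroup of the `x` with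
`Cong p T M x` (for `M ≥ 1` and `x ≡ 1` these are units; WLOG `M ≥ 1`). (1) `U/V₀` is finite: let `I = ∏_{w ∈ T} w^(e)` with `e` at
least all the `M ord_w(p)`; for `x ∈ U` there is `y ∈ 𝓞_L` with `x ≡ y mod w^e` at `w ∈ T` (`x = c/d`, `c, d ∈ 𝓞_L`, `d` a unit
at `T`, `d d' ≡ 1 mod I`, `y = c d'`), and the class of `y` in the finite ring `𝓞_L/I` determines `x` modulo `V₀`: if
`x, x'` have the same class then `x/x' - 1 = (x - x')/x'` has valuation `≤` that of `p^M` at `T`.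
(2) The divisors outside `T` of the elements of `U` have finite index in `ℤ^(PF T)`: to `d` associate the class of the ideal
`∏ w^(d w)` in the finite class group of `L`; if `d, d'` have the same class then `d - d'` is the divisor of some
`x ∈ Lˣ`, with valuation `0` at `T`, so `x ∈ U`.
(3) Let `x_1, ..., x_m` represent `U/V₀`, `d_1, ..., d_h` the cosets in (2): every `d` is `d_i + div(x_j) + div(v)`,
`v ∈ V₀ ⊆ V`. So the index of `φ(V)` is finite (there are at most `h m` cosets). -/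
def S_FIN : Prop :=
  ∀ (p : ℕ) [Fact p.Prime] (L : Type) [Field L] [NumberField L]
    (T : Set (HeightOneSpectrum (𝓞 L))), (∀ w ∈ T, w.valuation L (p : L) < 1) →
  ∀ (V : Subgroup Lˣ) (M : ℕ), (∀ v : Lˣ, Cong p T M (v : L) → v ∈ V) →
  ∀ φ : V →* Multiplicative (PF T →₀ ℤ),
    (∀ (v : V) (w : PF T), (φ v).toAdd w = ordv w.1 ((v : Lˣ) : L)) → φ.range.index ≠ 0

/-- **RNK** (the ranks). `E` is a group of units of `L` which contains the units congruent to `1` modulo a power of `p`.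

PROOF. `E` is a subgroup of the units of `𝓞_L` (valuation `1` at all the primes), which are finitely generated (Dirichlet,
`NumberField.Units`), so `E` is finitely generated. `t^(p^k) = 1` as `σ^(p^k) = 1` (order of the Galois group). Let
`i ≤ k`, `L_i` the field fixed by `σ^(p^i)`: `σ` has order `p^k` (it generates the Galois group, of order
`p^k = [L : F]`), so `σ^(p^i)` has order `p^(k-i)` and `[L_i : F] = p^i`. `L_i` is totally complex of degree
`p^i [F : ℚ]` over `ℚ` (`F` is), so its units have rank `[L_i : ℚ]/2 - 1 = p^i ([F : ℚ]/2) - 1` (`[F : ℚ]` is even;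
`NumberField.Units.rank`, `nrRealPlaces = 0`, `nrRealPlaces + 2 nrComplexPlaces = finrank`; see
`Pool/Agent/Helper90/REC/HUNI.lean`). The subgroup `E_i = fixG (t^(p^i))` consists of the `u ∈ E` in `L_i`: it is
contained in (the image of) the units of `L_i` and contains a power of each of them: if `u` is a unit of `L_i`, its
class in the finite group `(𝓞_L/p^M)ˣ` has finite order `m` (`m` independent of `u`), `u^m ≡ 1 mod p^M`, so `u^m ∈ E`.
So the ranks are equal (`rank_eq` in `Pool/Agent/Helper13/REC/`). -/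
def S_RNK : Prop :=
  ∀ (p : ℕ) [Fact p.Prime] (F L : Type) [Field F] [NumberField F] [Field L] [NumberField L]
    [Algebra F L] [IsGalois F L], IsTotallyComplex F →
  ∀ (k : ℕ) (σ : L ≃ₐ[F] L), finrank F L = p ^ k → (∀ g : L ≃ₐ[F] L, ∃ i : ℕ, g = σ ^ i) →
  ∀ (E : Subgroup Lˣ) (M : ℕ),
    (∀ u : Lˣ, (∀ w : HeightOneSpectrum (𝓞 L), w.valuation L (u : L) = 1) →
      Cong p {w | w.valuation L (p : L) < 1} M (u : L) → u ∈ E) →
    (∀ u ∈ E, ∀ w : HeightOneSpectrum (𝓞 L), w.valuation L (u : L) = 1) →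
  ∀ t : E ≃* E, (∀ u : E, (((t u : E) : Lˣ) : L) = σ ((u : Lˣ) : L)) →
    Group.FG E ∧ (∀ u, (t ^ (p ^ k) : MulAut E) u = u) ∧
    ∀ i, i ≤ k →
      finrank ℤ (Additive (fixG (t ^ (p ^ i) : MulAut E))) + 1 = finrank ℚ F / 2 * p ^ i

/-- **PRI** (the primes of `L` outside `S'`).

PROOF. `π w = gP σ w` (the prime `σ(w)`; `ord_(σ w)(σ x) = ord_w(x)`), a permutation of the primes of `L` which preserves
`S' = upS L S` (`σ` fixes `F`, so `σ w` and `w` are above the same prime of `F`). `b w = w ∩ F`, not in `S`. `π^n = 1`.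
The Galois group `⟨σ⟩` acts transitively on the primes above a given prime of `F` (`Ideal.exists_smul_eq_of_isGalois` or
similar; tools in `Pool/Agent/Helper2/RL/EF1.lean`, `Pool/Agent/Helper85/REC/HCNT.lean`), every prime of `F` has a prime
above it. Last statement: let `N w = N W`, `W = b w`, so the residue degree is `1`, and the ramification index is `1` by
the hypothesis; `n = e f g`, so there are `n` primes above `W`: the `π^i w`, `0 ≤ i < n`, are pairwise distinct (they are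
all the primes above `W`), so `π^i w = w` only for `i = 0` and `fx n π w = 1`. -/
def S_PRI : Prop :=
  ∀ (F L : Type) [Field F] [NumberField F] [Field L] [NumberField L]
    [Algebra F L] [IsGalois F L] (n : ℕ) (σ : L ≃ₐ[F] L), finrank F L = n →
    (∀ g : L ≃ₐ[F] L, ∃ i : ℕ, g = σ ^ i) →
  ∀ S : Set (HeightOneSpectrum (𝓞 F)),
    (∀ W, W ∉ S → ∀ w : HeightOneSpectrum (𝓞 L), Above w W →
      ∀ x : F, ordv w (algebraMap F L x) = ordv W x) →
  ∃ (π : Equiv.Perm (PF (upS L S))) (b : PF (upS L S) → PF S), Orb n π b ∧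
    (∀ w, Above w.1 (b w).1) ∧
    (∀ (w : PF (upS L S)) (x : L), ordv (π w).1 (σ x) = ordv w.1 x) ∧
    ∀ w : PF (upS L S), Ideal.absNorm w.1.asIdeal = Ideal.absNorm (b w).1.asIdeal → fx n π w = 1

/-- **CNTN** (the first inequality). Hypotheses allowed: `S_CNTA`, `S_HER`, `S_VEX`, `S_FIN`, `S_RNK`, `S_PRI`.

PROOF. `n = p^k`; `π, b` from `S_PRI`, `V, s, M` from `S_VEX`, `φ : V → ℤ^(PF S')` the divisor (finite support: e.g.
`Pool.Agent.Helper33.REC.finite_ordv`), `φ(s v)(π w) = φ(v)(w)`. `E = {u ∈ V : all valuations are 1}` (a subgroup of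
`Lˣ`) is stable under `σ`, `t` the restriction of `s`, `j` the inclusion; `φ v = 1` iff `v ∈ E` (the elements of `V` are
units at `S'`). `S_RNK` applies to `E`: a unit `u` with `Cong` at all the primes above `p` is in `V` (the primes of `S'`
are above `p`). With `r = finrank ℚ F / 2`, `S_HER` gives the relation for `H⁰`, `H¹` of `E`. `S_FIN`: `φ(V)` has
finite index (`T = S'`). `ψ : V → ℤ^(PF S)`: for `v ∈ V` with `s v = v`, `v` is the image of an element `y` of `Fˣ` (Galois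
theory, `σ` generates), `ψ(v)(W) = ord_W(y)`, and `φ(v)(w) = ord_w(y) = ord_(b w)(y)` (unramified); for the other `v` put
`ψ(v) = 0`. So `S_CNTA` gives `H = HH n π b ψ` of finite index `≥ n`.
Conclusions: `p^k d ∈ H` for every `d` is needed only for `d = δ_W` (they generate): choose `w` with `b w = W`; `fx n π w` divides
`n` (it is the order of the stabiliser of `w` in the cyclic group of order `n`: the `i < n` with `π^i w = w` are the
multiples of the least positive one, which divides `n`), so `p^k δ_W` is a multiple of `f_w δ_W ∈ H`.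
`N := M`: let `v ∈ Fˣ`, `Cong p S M v`. Its image in `Lˣ` satisfies `Cong p S' M` (valuations of elements of `F` at `w` above
`W` are obtained from those at `W` by an increasing function: `w(x) ≤ w(p)^M` iff `W(x) ≤ W(p)^M`; e.g.
`w.valuation (algebraMap x) = (W.valuation x)^e`), so it is in `V`, fixed by `s`, and its `ψ` is the divisor of
`v` outside `S`: it is in `H`. If `W ∉ S` and `w` above `W` has the same norm then `w ∉ S'`, `b w = W` (`Above` determines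
the prime below), `fx = 1`, so `δ_W ∈ H`. -/
def S_CNTN : Prop :=
  ∀ (p : ℕ) [Fact p.Prime] (F L : Type) [Field F] [NumberField F] [Field L] [NumberField L]
    [Algebra F L] [IsGalois F L], IsTotallyComplex F →
  ∀ k : ℕ, finrank F L = p ^ k → IsCyclic (L ≃ₐ[F] L) →
  ∀ S : Set (HeightOneSpectrum (𝓞 F)), S.Nonempty → (∀ W ∈ S, W.valuation F (p : F) < 1) →
    (∀ W, W ∉ S → ∀ w : HeightOneSpectrum (𝓞 L), Above w W →
      ∀ x : F, ordv w (algebraMap F L x) = ordv W x) →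
  ∃ (N : ℕ) (H : AddSubgroup (PF S →₀ ℤ)), H.index ≠ 0 ∧ p ^ k ≤ H.index ∧
    (∀ d : PF S →₀ ℤ, (p ^ k : ℕ) • d ∈ H) ∧
    (∀ (v : Fˣ) (d : PF S →₀ ℤ), Cong p S N (v : F) → (∀ W : PF S, d W = ordv W.1 (v : F)) →
      d ∈ H) ∧
    ∀ W : PF S, (∃ w : HeightOneSpectrum (𝓞 L), Above w W.1 ∧
      Ideal.absNorm w.asIdeal = Ideal.absNorm W.1.asIdeal) → Finsupp.single W 1 ∈ H

/-! ## The characters of order `p` -/

/-- **DU** (the characters of order `p` are Kummer characters). `θ` vanishes on `S` and kills the divisors of the elements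
congruent to `1` modulo `p^N` at `S`.

PROOF (from `g_int` = `G_INT`, `r_dua` = `R_DUA`). `f(α) = ∑_{W ∉ S₁} ord_W(α) θ(W)` (finite sums) is a homomorphism
`Fˣ → ZMod p`, trivial on the `S₁`-units. Let `β` satisfy `LocS p S₁`. By `G_INT` (with `N + 1` for `N`) `β g_1 = g_0 e^p` with
`g_i ∈ 𝓞_F`, `p^(N+1) ∣ g_i - 1`, `g_i ≡ 1` modulo the `v ∈ S₁`. `f(e^p) = 0`. `f(g_i) = ∑_{W ∉ S₁} ord_W(g_i) θ(W) = dsum θ g_i`,
because `ord_W(g_i) = 0` for `W ∈ S₁`; and `Cong p S N g_i` holds (`p^(N+1) ∣ g_i - 1` in `𝓞_F`), so `dsum θ g_i = 0` (if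
`g_i` is the unit of `F` given by `G_INT`). So `f(β) = 0`. By `R_DUA` there is an `S₁`-unit `β` with
`f(α) = brk p ε S₁ β α` for all `α`. For `W ∉ S₁` take `α` with `ord_W(α) = 1` and `ord_(W')(α) = 0` for the other `W' ∉ S₁`
(`Sit.prin`): `θ(W) = kap_W(β)`. -/
def S_DU : Prop :=
  ∀ (p : ℕ) [Fact p.Prime] (F : Type) [Field F] [NumberField F] (ε : F)
    (S₁ : Set (HeightOneSpectrum (𝓞 F))), Sit p F ε S₁ →
  ∀ (S : Set (HeightOneSpectrum (𝓞 F))), S ⊆ S₁ → ∀ (N : ℕ) (θ : HeightOneSpectrum (𝓞 F) → ZMod p),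
    (∀ v : Fˣ, Cong p S N (v : F) → dsum θ (v : F) = 0) →
    ∃ β ∈ S₁.unit F, ∀ W, W ∉ S₁ → θ W = kap p ε W β

/-- **DET** (a character is determined outside a finite set). 

PROOF (from `k_app` = `K_APP`). Let `W ∈ S₁`, `W ∉ S`. Choose `π ∈ Fˣ` with `ord_W(π) = 1`. By `K_APP` (for the finite set
`S₁`; `g_W = π`, `g_(W') = 1` for the other `W' ∈ S₁`) there is `v ∈ Fˣ` with `v ≡ 1` modulo `W'` and modulo `p^N` at
`W'` for `W' ∈ S₁`, `W' ≠ W`, and `v/π ≡ 1 mod W`: so `ord_W(v) = 1`, `ord_(W')(v) = 0` for the other `W' ∈ S₁`,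
`Cong p S N v` (as `W ∉ S`). `0 = dsum θ v = θ(W) + ∑_{W' ∉ S₁} ord_(W')(v) θ(W') = θ(W)`. -/
def S_DET : Prop :=
  ∀ (p : ℕ) [Fact p.Prime] (F : Type) [Field F] [NumberField F]
    (S₁ S : Set (HeightOneSpectrum (𝓞 F))), S₁.Finite → S ⊆ S₁ →
  ∀ (N : ℕ) (θ : HeightOneSpectrum (𝓞 F) → ZMod p),
    (∀ v : Fˣ, Cong p S N (v : F) → dsum θ (v : F) = 0) → (∀ W, W ∉ S₁ → θ W = 0) →
    ∀ W, W ∉ S → θ W = 0

/-- **DEN** (an element which is locally a `p`-th power at almost all the primes which have a prime of degree one above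
them in `L` is a `p`-th power in `L`).

PROOF (from `l_upp` = `L_UPP`, `RS.S_PSM` = `Pool.Agent.Helper38.RS.s_psm`, `RS.S_DG1` = `Pool.Agent.Helper88.RS.s_dg1`; compare
`Pool/Agent/Helper8/REC/LLOW.lean`). Suppose that `β` is not a `p`-th power in `L`. `L_UPP` for `L`, `m = 1`, `y_0 = β` (if
`β^a` is a `p`-th power in `L`, `p ∤ a`, then so is `β`): `∑ N(w)^(-s) ≤ (1/p) log(1/(s-1)) + C` over the primes `w ∤ p` of `L`
with `LocPow p w β`. Let `w` be a prime of `L` whose norm is a prime number and which is not above `p` or above a prime in `Z`,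
`W = w ∩ F`: `N W` divides the prime number `N w` (the residue field of `W` is a subfield of that of `w`), so `N W = N w` and
`LocPow p W β`, i.e. `W(β y^p - 1) < 1` for some `y ∈ F`, so `w(β y^p - 1) < 1` and `LocPow p w β`. By `S_PSM` and `S_DG1` (the
primes above `p` and `Z` are finitely many) the sum over these `w` is at least `log(1/(s-1)) - C'`. For `s → 1+` this is a
contradiction, as `1/p < 1`. -/
def S_DEN : Prop :=
  ∀ (p : ℕ) [Fact p.Prime] (F L : Type) [Field F] [NumberField F] [Field L] [NumberField L]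
    [Algebra F L] (ε : F), IsPrimitiveRoot ε p →
  ∀ (Z : Set (HeightOneSpectrum (𝓞 F))), Z.Finite → ∀ β : Fˣ,
    (∀ W, W ∉ Z → W.valuation F (p : F) = 1 → (∃ w : HeightOneSpectrum (𝓞 L), Above w W ∧
      Ideal.absNorm w.asIdeal = Ideal.absNorm W.asIdeal) → LocPow p W (β : F)) →
    ∃ y : L, y ^ p = algebraMap F L β

/-- **KM** (Kummer theory). Two elements of `F` which are `p`-th powers in a cyclic extension are dependent.

PROOF. `b_i^p = β_i`, `σ` a generator of the Galois group; `σ(b_i)^p = β_i`, so `σ(b_i) = ε^(a_i) b_i`. If `p ∣ a_1` then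
`σ b_1 = b_1`, `b_1 ∈ F`, and `β_1` is a `p`-th power in `F`: take `(1, 0)`. Otherwise choose `c` with `c a_1 + a_2 ≡ 0 mod p`:
`σ(b_1^c b_2) = b_1^c b_2`, so `b_1^c b_2 ∈ F`, `β_1^c β_2 = (b_1^c b_2)^p`: take `(c, 1)`. -/
def S_KM : Prop :=
  ∀ (p : ℕ) [Fact p.Prime] (F L : Type) [Field F] [NumberField F] [Field L] [NumberField L]
    [Algebra F L] [IsGalois F L] (ε : F), IsPrimitiveRoot ε p → IsCyclic (L ≃ₐ[F] L) →
  ∀ β₁ β₂ : Fˣ, (∃ y : L, y ^ p = algebraMap F L β₁) → (∃ y : L, y ^ p = algebraMap F L β₂) →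
    ∃ a b : ℕ, (¬ p ∣ a ∨ ¬ p ∣ b) ∧ Pw p (β₁ ^ a * β₂ ^ b)

/-- **CYC** (a criterion for cyclic groups). `X = Y/H` is finite, killed by `p^k`, has at least `p^k` elements, and any two
homomorphisms `X → ZMod p` are dependent. Then there is a surjective homomorphism `X → ZMod (p^k)`.

PROOF. `k = 0`: take `0`. Let `k ≥ 1`. `X/pX` is a vector space over `ZMod p`; its dual has dimension at most `1`, so it has
dimension at most `1`: there is `x ∈ X` with `X = ℤ x + p X`. Iterating, `X = ℤ x + p^j X` for all `j`, so `X = ℤ x`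
(`p^k X = 0`). So `X` is cyclic, its order divides `p^k` (exponent) and is at least `p^k`: `X ≅ ZMod (p^k)`
(`zmodAddCyclicAddEquiv` or similar). -/
def S_CYC : Prop :=
  ∀ (p : ℕ) [Fact p.Prime] (k : ℕ) (Y : Type) [AddCommGroup Y] (H : AddSubgroup Y), H.index ≠ 0 →
    p ^ k ≤ H.index → (∀ y : Y, (p ^ k : ℕ) • y ∈ H) →
    (∀ θ₁ θ₂ : Y →+ ZMod p, (∀ h ∈ H, θ₁ h = 0) → (∀ h ∈ H, θ₂ h = 0) →
      ∃ a b : ℕ, (¬ p ∣ a ∨ ¬ p ∣ b) ∧ ∀ y, (a : ZMod p) * θ₁ y + (b : ZMod p) * θ₂ y = 0) →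
    ∃ ϑ : Y →+ ZMod (p ^ k), (∀ h ∈ H, ϑ h = 0) ∧ Function.Surjective ϑ

/-- **LFT** (the assembly). Hypotheses allowed: `S_CNTN`, `S_DU`, `S_DET`, `S_DEN`, `S_KM`, `S_CYC`, `S_SEX`
(`Pool.Agent.Helper81.RS.s_sex` as in `Pool/Agent/Helper46/PP/PSCH.lean`), `K_BAS` (`k_bas`).

PROOF. `S` is finite, `S_SEX` gives a finite `S₁ ⊇ S ∪ {primes above p}` with `Sit p F ε S₁`. `N, H` from `S_CNTN`. Let
`θ : ℤ^(PF S) → ZMod p` be a homomorphism which kills `H`, `θ'(W) = θ(δ_W)` for `W ∉ S`, `θ'(W) = 0` for `W ∈ S`. For `v ∈ Fˣ` with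
`Cong p S N v` the divisor `d` of `v` outside `S` is in `H`, and `dsum θ' v = θ(d) = 0`. `S_DU`: `β_θ ∈ Fˣ` with
`θ'(W) = kap_W(β_θ)` for `W ∉ S₁`. If `W ∉ S₁` has a prime `w` of the same norm above it, `δ_W ∈ H`, so `kap_W(β_θ) = 0`,
`LocPow p W β_θ` (`K_BAS`, `β_θ` is an `S₁`-unit). So `β_θ` is a `p`-th power in `L` (`S_DEN`, `Z = S₁`).
Two such `θ_1, θ_2`: by `S_KM` `β_1^a β_2^b` is a `p`-th power, so `a θ_1' + b θ_2'` is `0` outside `S₁`
(`K_BAS`: additivity, `kap` of a `p`-th power is `0`), and outside `S` by `S_DET`; so `a θ_1 + b θ_2 = 0` (the `δ_W` generate).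
`S_CYC`: `ϑ₀ : ℤ^(PF S) → ZMod (p^k)` surjective, zero on `H`. `ϑ(W) = ϑ₀(δ_W)` for `W ∉ S`, `0` for `W ∈ S`. `dsum ϑ v = 0` if
`Cong p S N v`. `θ = (ϑ₀ mod p)` (`ZMod.castHom`, `p ∣ p^k` as `k ≥ 1`), `x = β_θ`, `Z = S₁`. For `W ∉ S₁`:
`p^(k-1) ϑ(W) = p^(k-1) (kap_W(x)).val`, because `ϑ(W) ≡ kap_W(x) mod p`. If `x` were a `p`-th power then `θ' = 0` outside
`S₁`, so `θ = 0` by `S_DET`, and `ϑ₀` would have values in `p ZMod (p^k)`: not surjective. -/
def S_LFT : Prop := S_LIFT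

end Pool.Agent.Helper51.SDL
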