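import Pool.Agent.Helper51.SDL.Goals
import Pool.Agent.Helper51.RP.Goals2
import Pool.Agent.Helper51.REC.Goals1
import Pool.Agent.Helper33.REC.KBRK
import Pool.Agent.Helper42.RD.VAL

/-!
# Project SD, part L: the assembly `S_LFT`
-/

set_option autoImplicit false

namespace Pool.Agent.Helper51.SDL

open NumberField Module IsDedekindDomain
open Pool.Agent.Helper51.RP Pool.Agent.Helper51.REC Pool.Agent.Helper16.SD

section ext

variable {F : Type} [Field F] [NumberField F] {S : Set (HeightOneSpectrum (𝓞 F))}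

open Classical in
/-- The function on the primes given by a homomorphism on the divisors outside `S`. -/
noncomputable def extF {R : Type} [CommRing R] (θ : (PF S →₀ ℤ) →+ R)
    (W : HeightOneSpectrum (𝓞 F)) : R :=
  if h : W ∉ S then θ (Finsupp.single ⟨W, h⟩ 1) else 0

theorem extF_of {R : Type} [CommRing R] (θ : (PF S →₀ ℤ) →+ R) (W : PF S) :
    extF θ W.1 = θ (Finsupp.single W 1) := by
  unfold extF
  rw [dif_pos W.2]

theorem extF_in {R : Type} [CommRing R] (θ : (PF S →₀ ℤ) →+ R) {W : HeightOneSpectrum (𝓞 F)}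
    (h : W ∈ S) : extF θ W = 0 := by
  unfold extF
  rw [dif_neg (not_not.2 h)]

open Classical in
theorem exists_div (v : Fˣ) : ∃ d : PF S →₀ ℤ, ∀ W : PF S, d W = ordv W.1 (v : F) := by
  have hfin : {W : PF S | ordv W.1 (v : F) ≠ 0}.Finite :=
    (Pool.Agent.Helper33.REC.finite_ordv v).preimage (Subtype.val_injective.injOn)
  refine ⟨Finsupp.onFinset hfin.toFinset (fun W ↦ ordv W.1 (v : F)) ?_, fun W ↦ rfl⟩
  intro W hW
  simpa using hW

theorem map_div {R : Type} [CommRing R] (θ : (PF S →₀ ℤ) →+ R) (d : PF S →₀ ℤ) :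
    θ d = ∑ W ∈ d.support, ((d W : ℤ) : R) * θ (Finsupp.single W 1) := by
  conv_lhs => rw [← Finsupp.sum_single d]
  rw [Finsupp.sum, map_sum]
  refine Finset.sum_congr rfl fun W _ ↦ ?_
  have h1 : (Finsupp.single W (d W) : PF S →₀ ℤ) = (d W) • Finsupp.single W (1 : ℤ) := by
    rw [Finsupp.smul_single, smul_eq_mul, mul_one]
  rw [h1, map_zsmul, zsmul_eq_mul]

theorem dsum_extF {R : Type} [CommRing R] (θ : (PF S →₀ ℤ) →+ R) (v : Fˣ) (d : PF S →₀ ℤ)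
    (hd : ∀ W : PF S, d W = ordv W.1 (v : F)) : dsum (extF θ) (v : F) = θ d := by
  classical
  unfold dsum
  rw [finsum_eq_sum_of_support_subset (s := d.support.map (Function.Embedding.subtype _)),
    Finset.sum_map, map_div]
  · refine Finset.sum_congr rfl fun W _ ↦ ?_
    rw [Function.Embedding.subtype_apply, extF_of, hd]
  · intro W hW
    rw [Function.mem_support] at hW
    by_cases h : W ∈ S
    · rw [extF_in θ h, mul_zero] at hW
      exact absurd rfl hW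
    · have h1 : ordv W (v : F) ≠ 0 := by
        intro h0
        apply hW
        rw [h0]
        simp
      simp only [Finset.coe_map, Function.Embedding.subtype_apply, Set.mem_image, Finset.mem_coe,
        Finsupp.mem_support_iff]
      exact ⟨⟨W, h⟩, by rw [hd]; exact h1, rfl⟩

theorem extF_zero {R : Type} [CommRing R] (θ : (PF S →₀ ℤ) →+ R) (h : ∀ W, W ∉ S → extF θ W = 0)
    (d : PF S →₀ ℤ) : θ d = 0 := by
  rw [map_div]
  refine Finset.sum_eq_zero fun W _ ↦ ?_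
  rw [← extF_of, h W.1 W.2, mul_zero]

end ext

section kap

variable {p : ℕ} [Fact p.Prime] {F : Type} [Field F] [NumberField F] {ε : F}

theorem kap_pow (hK : K_BAS) (hε : IsPrimitiveRoot ε p) {W : HeightOneSpectrum (𝓞 F)}
    (hW : W.valuation F (p : F) = 1) {x : Fˣ} (hx : ordv W (x : F) = 0) (n : ℕ) :
    kap p ε W (x ^ n) = n * kap p ε W x := by
  obtain ⟨_, _, _, h4, h5, _⟩ := hK p F ε hε W hW
  induction n with
  | zero =>
    have := h5 1
    rw [one_pow] at this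
    rw [pow_zero, this]
    simp
  | succ n ih =>
    rw [pow_succ, h4 _ _ _ (by rw [hx]; exact dvd_zero _), ih]
    · push_cast
      ring
    · rw [Units.val_pow_eq_pow_val, Pool.Agent.Helper42.RD.ordv_pow, hx, mul_zero]
      exact dvd_zero _

end kap

theorem castHom_val {p : ℕ} [Fact p.Prime] {k : ℕ} (hk : 1 ≤ k) (z : ZMod (p ^ k)) :
    (p : ZMod (p ^ k)) ^ (k - 1) * z = (p : ZMod (p ^ k)) ^ (k - 1) *
      (((ZMod.castHom (dvd_pow_self p (by omega : k ≠ 0)) (ZMod p) z).val : ℕ) :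
        ZMod (p ^ k)) := by
  have hp : p.Prime := Fact.out
  have : NeZero (p ^ k) := ⟨pow_ne_zero k hp.ne_zero⟩
  have h1 : (ZMod.castHom (dvd_pow_self p (by omega : k ≠ 0)) (ZMod p) z).val = z.val % p := by
    rw [ZMod.castHom_apply, ZMod.cast_eq_val, ZMod.val_natCast]
  rw [h1]
  have h2 : z = ((z.val % p + p * (z.val / p) : ℕ) : ZMod (p ^ k)) := by
    rw [Nat.mod_add_div, ZMod.natCast_val, ZMod.cast_id]
  conv_lhs => rw [h2]
  rw [Nat.cast_add, Nat.cast_mul, mul_add, ← mul_assoc, ← pow_succ, Nat.sub_add_cancel hk]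
  have h3 : ((p : ZMod (p ^ k)) ^ k) = 0 := by
    have := ZMod.natCast_self (p ^ k)
    rwa [Nat.cast_pow] at this
  rw [h3, zero_mul, add_zero]

theorem lft (hC : S_CNTN) (hDU : S_DU) (hDET : S_DET) (hDEN : S_DEN) (hKM : S_KM) (hCYC : S_CYC)
    (hSEX : S_SEX) (hK : K_BAS) : S_LFT := by
  intro p _ hp2 F L _ _ _ _ _ _ ε hε hcx k hk hfr hcyc S hSne hSp hunr
  have hp : p.Prime := Fact.out
  obtain ⟨N, H, hHi, hHle, hHk, hHc, hHw⟩ := hC p F L hcx k hfr hcyc S hSne hSp hunr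
  have hp0 : (p : F) ≠ 0 := Nat.cast_ne_zero.2 hp.ne_zero
  -- the set of the primes above `p`
  have hSPfin : {W : HeightOneSpectrum (𝓞 F) | W.valuation F (p : F) < 1}.Finite := by
    refine (Pool.Agent.Helper33.REC.finite_ordv (Units.mk0 (p : F) hp0)).subset ?_
    intro W hW h0
    have h1 := (Pool.Agent.Helper42.RD.ordv_eq_zero_iff (w := W) hp0).1 h0
    rw [Set.mem_ofPred_eq, h1] at hW
    exact lt_irrefl _ hW
  obtain ⟨S₁, hS₁f, hS₁p, _, hS₁pr⟩ := hSEX ℚ F _ hSPfin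
  have hSS : S ⊆ S₁ := fun W hW ↦ hS₁p (hSp W hW)
  have hsit : Sit p F ε S₁ := ⟨hε, hcx, hS₁f, fun W hW ↦ hS₁p hW, hS₁pr⟩
  have hv1 : ∀ W, W ∉ S₁ → W.valuation F (p : F) = 1 := by
    intro W hW
    by_contra hne
    apply hW
    apply hS₁p
    refine lt_of_le_of_ne ?_ hne
    have h1 : (p : F) = algebraMap (𝓞 F) F (p : 𝓞 F) := by
      rw [map_natCast]
    rw [h1]
    exact W.valuation_le_one _
  -- vanishing on the elements congruent to one
  have hvan : ∀ {R : Type} [CommRing R] (θ : (PF S →₀ ℤ) →+ R), (∀ h ∈ H, θ h = 0) →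
      ∀ v : Fˣ, Cong p S N (v : F) → dsum (extF θ) (v : F) = 0 := by
    intro R _ θ hθ v hv
    obtain ⟨d, hd⟩ := exists_div (S := S) v
    rw [dsum_extF θ v d hd]
    exact hθ d (hHc v d hv hd)
  -- the Kummer element
  have hβ : ∀ θ : (PF S →₀ ℤ) →+ ZMod p, (∀ h ∈ H, θ h = 0) →
      ∃ β : Fˣ, (∀ W, W ∉ S₁ → ordv W (β : F) = 0) ∧
        (∀ W, W ∉ S₁ → extF θ W = kap p ε W β) ∧ ∃ y : L, y ^ p = algebraMap F L β := by
    intro θ hθ
    obtain ⟨β, hβu, hβk⟩ := hDU p F ε S₁ hsit S hSS N (extF θ) (hvan θ hθ)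
    have hβ0 : ∀ W, W ∉ S₁ → ordv W (β : F) = 0 := by
      intro W hW
      rw [Pool.Agent.Helper42.RD.ordv_eq_zero_iff (w := W) β.ne_zero]
      exact hβu W hW
    refine ⟨β, hβ0, hβk, ?_⟩
    refine hDEN p F L ε hε S₁ hS₁f β ?_
    intro W hW hWp hWw
    have hWS : W ∉ S := fun h ↦ hW (hSS h)
    have h1 := hθ _ (hHw ⟨W, hWS⟩ hWw)
    rw [← extF_of θ ⟨W, hWS⟩] at h1
    have h2 : kap p ε W β = 0 := by
      rw [← hβk W hW]
      exact h1
    exact ((hK p F ε hε W hWp).2.2.2.2.2.1 β (by rw [hβ0 W hW]; exact dvd_zero _)).1 h2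
  have hdep : ∀ θ₁ θ₂ : (PF S →₀ ℤ) →+ ZMod p, (∀ h ∈ H, θ₁ h = 0) → (∀ h ∈ H, θ₂ h = 0) →
      ∃ a b : ℕ, (¬ p ∣ a ∨ ¬ p ∣ b) ∧
        ∀ y, (a : ZMod p) * θ₁ y + (b : ZMod p) * θ₂ y = 0 := by
    intro θ₁ θ₂ h₁ h₂
    obtain ⟨β₁, hb1, hk1, hy1⟩ := hβ θ₁ h₁
    obtain ⟨β₂, hb2, hk2, hy2⟩ := hβ θ₂ h₂
    obtain ⟨a, b, hab, ⟨y, hy⟩⟩ := hKM p F L ε hε hcyc β₁ β₂ hy1 hy2
    refine ⟨a, b, hab, ?_⟩
    have h3 : ∀ x, (a • θ₁ + b • θ₂) x = (a : ZMod p) * θ₁ x + (b : ZMod p) * θ₂ x := by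
      intro x
      rw [AddMonoidHom.add_apply, AddMonoidHom.nsmul_apply, AddMonoidHom.nsmul_apply,
        nsmul_eq_mul, nsmul_eq_mul]
    have h4 : ∀ h ∈ H, (a • θ₁ + b • θ₂) h = 0 := by
      intro h hh
      rw [h3, h₁ h hh, h₂ h hh, mul_zero, mul_zero, add_zero]
    have h5 : ∀ W, W ∉ S₁ → extF (a • θ₁ + b • θ₂) W = 0 := by
      intro W hW
      have hWS : W ∉ S := fun h ↦ hW (hSS h)
      have hWv := hv1 W hW
      rw [extF_of (a • θ₁ + b • θ₂) ⟨W, hWS⟩, h3, ← extF_of θ₁ ⟨W, hWS⟩, ← extF_of θ₂ ⟨W, hWS⟩]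
      show (a : ZMod p) * extF θ₁ W + (b : ZMod p) * extF θ₂ W = 0
      rw [hk1 W hW, hk2 W hW, ← kap_pow hK hε hWv (hb1 W hW), ← kap_pow hK hε hWv (hb2 W hW)]
      obtain ⟨_, _, _, g4, g5, _⟩ := hK p F ε hε W hWv
      rw [← g4, hy, g5]
      · rw [Units.val_pow_eq_pow_val, Pool.Agent.Helper42.RD.ordv_pow, hb1 W hW, mul_zero]
        exact dvd_zero _
      · rw [Units.val_pow_eq_pow_val, Pool.Agent.Helper42.RD.ordv_pow, hb2 W hW, mul_zero]
        exact dvd_zero _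
    have h6 := hDET p F S₁ S hS₁f hSS N (extF (a • θ₁ + b • θ₂)) (hvan _ h4) h5
    intro x
    rw [← h3]
    exact extF_zero _ h6 x
  obtain ⟨ϑ₀, hϑH, hϑs⟩ := hCYC p k (PF S →₀ ℤ) H hHi hHle hHk hdep
  have hpk : p ∣ p ^ k := dvd_pow_self p (by omega)
  let c : ZMod (p ^ k) →+ ZMod p := (ZMod.castHom hpk (ZMod p)).toAddMonoidHom
  let θ : (PF S →₀ ℤ) →+ ZMod p := c.comp ϑ₀
  have hθH : ∀ h ∈ H, θ h = 0 := by
    intro h hh
    show c (ϑ₀ h) = 0
    rw [hϑH h hh, map_zero]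
  obtain ⟨x, hx0, hxk, hxy⟩ := hβ θ hθH
  refine ⟨N, extF ϑ₀, x, S₁, hS₁f, ?_, hxy, hvan ϑ₀ hϑH, ?_⟩
  · rintro ⟨y, hy⟩
    have h5 : ∀ W, W ∉ S₁ → extF θ W = 0 := by
      intro W hW
      rw [hxk W hW, hy]
      exact (hK p F ε hε W (hv1 W hW)).2.2.2.2.1 y
    have h6 := hDET p F S₁ S hS₁f hSS N (extF θ) (hvan _ hθH) h5
    obtain ⟨d, hd⟩ := hϑs 1
    have h7 : θ d = 0 := extF_zero _ h6 d
    have h8 : θ d = 1 := by
      show (ZMod.castHom hpk (ZMod p)) (ϑ₀ d) = 1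
      rw [hd, map_one]
    rw [h8] at h7
    have : Fact (1 < p) := ⟨hp.one_lt⟩
    exact one_ne_zero h7
  · intro W hW
    have hWS : W ∉ S := fun h ↦ hW (hSS h)
    have h1 : kap p ε W x = ZMod.castHom hpk (ZMod p) (extF ϑ₀ W) := by
      rw [← hxk W hW, extF_of θ ⟨W, hWS⟩, extF_of ϑ₀ ⟨W, hWS⟩]
      rfl
    rw [h1]
    exact castHom_val hk (extF ϑ₀ W)

end Pool.Agent.Helper51.SDL
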